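import Pool.Agent.T2H56.SM.Ind

/-! # MP_a1d272_co: the set-mapping parameter of a hypergraph is linear up to a power of the logarithm

Let `G` be a `k`-graph with `m` edges and no isolated vertices, and let
`N ≥ 16 k² (8 (1 + log k))^k · m (1 + log m)^k`. Then for every map `f` from the `k`-subsets of `[N]` to the `k`-subsets
of `[N]` with `f(e) ∩ e = ∅` there is a copy of `G` in the complete `k`-graph on `[N]` whose edges `e` all satisfy
`f(e) ∩ V(copy) = ∅`.

Proof: the vertices are placed in the order of decreasing degrees. If `S` is the placed part of an edge then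
`μ_S(O)` is the expected number of placed points hit by `f` of a random completion of `S`; the potential
`∑_w exp(L^k ∑_(e ∋ w) L^(-|e ∩ P|) μ_(φ(e ∩ P))(φ(P)) - drift)` over the unplaced vertices `w`, `L = 8 (1 + log n)`, can be
kept below `n` (the inner sums are supermartingales with small jumps when the new position is chosen among the at least
`N/2` good ones), and this leaves good positions for every vertex. -/

set_option autoImplicit false

namespace Pool.Agent.Results.MP_a1d272_co.PolylogBound

open Finset

/-- `f` maps every `k`-subset of `[N]` to a `k`-subset of `[N]` disjoint from it (the values of `f` at other sets are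
irrelevant). -/
def SetMapping (k N : ℕ) (f : Finset (Fin N) → Finset (Fin N)) : Prop :=
  ∀ s : Finset (Fin N), s.card = k → (f s).card = k ∧ Disjoint (f s) s

/-- The hypergraph with vertex set `Fin n` and edge set `E` has a copy in the complete hypergraph on `[N]` (given by the
injection `φ`) such that `f` of every edge of the copy is disjoint from the vertex set of the copy. -/
def FreeCopy (n : ℕ) (E : Finset (Finset (Fin n))) (N : ℕ) (f : Finset (Fin N) → Finset (Fin N)) : Prop :=
  ∃ φ : Fin n → Fin N, Function.Injective φ ∧ ∀ e ∈ E, Disjoint (f (e.image φ)) (univ.image φ)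

theorem result :
    ∀ k : ℕ, 1 ≤ k → ∀ (n : ℕ) (E : Finset (Finset (Fin n))), (∀ e ∈ E, e.card = k) →
      (∀ v : Fin n, ∃ e ∈ E, v ∈ e) →
      ∀ N : ℕ, 16 * (k : ℝ) ^ 2 * (8 * (1 + Real.log k)) ^ k * E.card * (1 + Real.log E.card) ^ k ≤ (N : ℝ) →
        ∀ f : Finset (Fin N) → Finset (Fin N), SetMapping k N f → FreeCopy n E N f := by
  intro k hk n E hE hiso N hN f hf
  refine Pool.Agent.T2H56.SM.exists_copy (k := k) hk hE hiso (fun s hs => hf s hs) ?_
  rw [Fintype.card_fin]
  calc 16 * (k : ℝ) ^ 2 * 8 ^ k * (1 + Real.log k) ^ k * E.card * (1 + Real.log E.card) ^ k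
      = 16 * (k : ℝ) ^ 2 * (8 * (1 + Real.log k)) ^ k * E.card * (1 + Real.log E.card) ^ k := by
        rw [mul_pow]; ring
    _ ≤ (N : ℝ) := hN

end Pool.Agent.Results.MP_a1d272_co.PolylogBound
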